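import Mathlib
import Pool.Graph.R_seed8.Y375.MI.Ext

set_option autoImplicit false

/-!
Maximal ideal independent families with prescribed ultrafilters attached to their members.
-/

namespace Pool.Agent.KS6_78.SM

open Set Cardinal Filter Pool.Agent.W635.Smm

/-- Pseudointersections. -/
theorem pseudo {A : Set ℕ} {𝒞 : Set (Set ℕ)} (hc : 𝒞.Countable)
    (h : ∀ F : Set (Set ℕ), F.Finite → F ⊆ 𝒞 → (A \ ⋃₀ F).Infinite) :
    ∃ E : Set ℕ, E.Infinite ∧ E ⊆ A ∧ ∀ C ∈ 𝒞, (E ∩ C).Finite := by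
  rcases 𝒞.eq_empty_or_nonempty with rfl | hne
  · exact ⟨A, by simpa using h ∅ finite_empty (empty_subset _), Subset.rfl,
      fun C hC => absurd hC (notMem_empty C)⟩
  obtain ⟨C, rfl⟩ := hc.exists_eq_range hne
  obtain ⟨φ, hφ, hφC⟩ := extraction_forall_of_frequently
    (P := fun k x => x ∈ A ∧ ∀ i ≤ k, x ∉ C i) (by
      intro k
      rw [Nat.frequently_atTop_iff_infinite]
      refine (h (C '' Iic k) ((finite_Iic k).image _) (image_subset_range _ _)).mono ?_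
      rintro x ⟨hx, hx2⟩
      exact ⟨hx, fun i hi hxi => hx2 ⟨C i, ⟨i, hi, rfl⟩, hxi⟩⟩)
  refine ⟨range φ, infinite_range_of_injective hφ.injective, ?_, ?_⟩
  · rintro x ⟨k, rfl⟩
    exact (hφC k).1
  · rintro _ ⟨m, rfl⟩
    apply ((finite_Iio m).image φ).subset
    rintro x ⟨⟨k, rfl⟩, hxk⟩
    refine ⟨k, ?_, rfl⟩
    by_contra hk
    exact (hφC k).2 m (not_lt.1 hk) hxk

section

variable {W : Type} [LinearOrder W] [WellFoundedLT W]

/-- **Main construction.** -/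
theorem exists_real (hW : ∀ a : W, (Iio a).Countable) (hW2 : ∀ s : Set W, s.Countable →
      ∃ b, ∀ a ∈ s, a < b) (hcard : #(W × W × W × Bool) = #W)
    {p : Ultrafilter ℕ} (hp : ∀ n : ℕ, {n} ∉ p) (V : W → Set ℕ) (hV : ∀ a, V a ∉ p)
    (hV2 : ∀ X : Set ℕ, X ∉ p → ∃ a, X ⊆ V a)
    (G : W → ℕ → ℕ) (hG : ∀ f : ℕ → ℕ, ∃ a, ∀ n, f n ≤ G a n)
    {ι : Type} [Countable ι] (D E : ι → Set ℕ) (hE : ∀ n, (E n).Infinite)
    (hED : ∀ n, E n ⊆ D n) (hEm : ∀ n m, n ≠ m → (E n ∩ D m).Finite) (hDp : ∀ n, D n ∉ p)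
    (q : ι ⊕ W → Ultrafilter ℕ) (hq : ∀ i n, {n} ∉ q i) (U : ι ⊕ W → W → Set ℕ)
    (hU : ∀ i a, U i a ∉ q i) (hU2 : ∀ i (X : Set ℕ), X ∉ q i → ∃ a, X ⊆ U i a) :
    ∃ (B : ι ⊕ W → Set ℕ) (e : ι ⊕ W → ℕ → ℕ), Function.Injective B ∧
      (∀ n, B (Sum.inl n) = D n) ∧ MaximalIdealIndependent (range B) ∧
      (∀ i, Function.Injective (e i)) ∧
      ∀ i (X : Set ℕ), e i ⁻¹' X ∈ q i ↔ ∃ F : Set (Set ℕ), F.Finite ∧ F ⊆ range B \ {B i} ∧
        ((B i \ ⋃₀ F) \ X).Finite := by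
  classical
  obtain ⟨w₀, _⟩ := hG (fun _ => 0)
  obtain ⟨D', hD'⟩ : ∃ D' : ℕ → Set ℕ, range D' = insert ∅ (range D) := by
    obtain ⟨C, hC⟩ := ((countable_range D).insert ∅).exists_eq_range ⟨∅, mem_insert _ _⟩
    exact ⟨C, hC.symm⟩
  obtain ⟨A₀, hA01, hA02, hA03, hA04'⟩ := Pool.Agent.Y375.MI.exists_sets' hW hp V hV D' (by
    intro n
    have h1 : D' n ∈ insert ∅ (range D) := hD' ▸ mem_range_self n
    rcases h1 with h | ⟨i, h⟩
    · rw [h]; exact finite_notMem hp finite_empty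
    · rw [← h]; exact hDp i)
  have hA04 : ∀ a n, (A₀ a ∩ D n).Finite := by
    intro a n
    have h1 : D n ∈ range D' := by rw [hD']; exact Or.inr (mem_range_self n)
    obtain ⟨k, hk⟩ := h1
    rw [← hk]; exact hA04' a k
  obtain ⟨A, hAl, hAr⟩ : ∃ A : ι ⊕ W → Set ℕ, (∀ n, A (Sum.inl n) = E n) ∧
      ∀ a, A (Sum.inr a) = A₀ a := ⟨Sum.elim E A₀, fun _ => rfl, fun _ => rfl⟩
  have hA1 : ∀ a, (A a).Infinite := by
    rintro (n | a)
    · rw [hAl]; exact hE n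
    · rw [hAr]; exact hA01 a
  have hAlD : ∀ (i : ι ⊕ W) (n : ι), i ≠ Sum.inl n → (A i ∩ D n).Finite := by
    rintro (m | a) n h
    · rw [hAl]; exact hEm m n (fun h' => h (by rw [h']))
    · rw [hAr]; exact hA04 a n
  have hAD : ∀ a b, a ≠ b → (A a ∩ A b).Finite := by
    rintro (n | a) (m | b) hab
    · refine (hAlD (Sum.inl n) m hab).subset (inter_subset_inter_right _ ?_)
      rw [hAl]; exact hED m
    · rw [inter_comm]
      refine (hAlD (Sum.inr b) n (by simp)).subset (inter_subset_inter_right _ ?_)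
      rw [hAl]; exact hED n
    · refine (hAlD (Sum.inr a) m (by simp)).subset (inter_subset_inter_right _ ?_)
      rw [hAl]; exact hED m
    · rw [hAr, hAr]
      have hab' : a ≠ b := fun h => hab (by rw [h])
      rcases lt_or_gt_of_ne hab' with h | h
      · rw [inter_comm]; exact hA03 b a h
      · exact hA03 a b h
  -- enumerations of the sets `A a`
  obtain ⟨e, he1, he2⟩ : ∃ e : ι ⊕ W → ℕ → ℕ, (∀ a, Function.Injective (e a)) ∧
      ∀ a, range (e a) = A a := by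
    refine ⟨fun a => Nat.nth (· ∈ A a), fun a => Nat.nth_injective (hA1 a), fun a => ?_⟩
    exact Nat.range_nth_of_infinite (hA1 a)
  -- `X` belongs to the ultrafilter attached to `a`
  have fin_not : ∀ (a : ι ⊕ W) (X : Set ℕ), (A a ∩ X).Finite → e a ⁻¹' X ∉ q a := by
    intro a X hX
    apply finite_notMem (hq a)
    have h1 : e a ⁻¹' X = e a ⁻¹' (A a ∩ X) := by
      ext m
      simp only [mem_preimage, mem_inter_iff]
      constructor
      · intro h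
        exact ⟨he2 a ▸ mem_range_self m, h⟩
      · exact fun h => h.2
    rw [h1]
    exact hX.preimage (he1 a).injOn
  have self_mem : ∀ a : ι ⊕ W, e a ⁻¹' (A a) ∈ q a := by
    intro a
    have h1 : e a ⁻¹' (A a) = Set.univ := by
      rw [← he2 a]; exact preimage_range _
    rw [h1]; exact Filter.univ_mem
  -- the ideal
  obtain ⟨𝒲, h𝒲⟩ : ∃ 𝒲 : Set (Set ℕ), 𝒲 = {X | ∀ a, e a ⁻¹' X ∉ q a} := ⟨_, rfl⟩
  have mem𝒲 : ∀ X, X ∈ 𝒲 ↔ ∀ a, e a ⁻¹' X ∉ q a := by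
    intro X; rw [h𝒲]; rfl
  have sub_notMem : ∀ X ∈ 𝒲, X ∉ p := by
    intro X hX hXp
    obtain ⟨b, hb⟩ := hV2 Xᶜ (Ultrafilter.compl_notMem_iff.2 hXp)
    obtain ⟨a, ha⟩ := hW2 {b} (countable_singleton b)
    have hab : b < a := ha b rfl
    have h1 : e (Sum.inr a) ⁻¹' Xᶜ ∉ q (Sum.inr a) := by
      apply fin_not
      rw [hAr]
      exact (hA02 a b hab).subset (inter_subset_inter_right _ hb)
    rw [preimage_compl, Ultrafilter.compl_notMem_iff] at h1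
    exact (mem𝒲 X).1 hX _ h1
  -- enumerations of initial segments
  have hc0 : ∀ a : W, (Iic a).Countable := by
    intro a
    rw [← Iio_insert]; exact (hW a).insert a
  have hc : ∀ a : W, ∃ c : ℕ → W, range c = Iic a := by
    intro a
    obtain ⟨c, hc⟩ := (hc0 a).exists_eq_range ⟨a, le_rfl⟩
    exact ⟨c, hc.symm⟩
  choose c' hc' using hc
  have hk : ∀ a : W, ∃ c : ℕ → ι ⊕ W, range c = range Sum.inl ∪ Sum.inr '' Iic a := by
    intro a
    have h1 : (range (Sum.inl : ι → ι ⊕ W) ∪ Sum.inr '' Iic a).Countable :=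
      (countable_range _).union ((hc0 a).image _)
    obtain ⟨c, hc⟩ := h1.exists_eq_range ⟨Sum.inr a, Or.inr ⟨a, le_rfl, rfl⟩⟩
    exact ⟨c, hc.symm⟩
  choose c hc using hk
  -- generators
  obtain ⟨Gen, hGen⟩ : ∃ Gen : W × W × W × Bool → Set ℕ, ∀ t, Gen t =
      {x | x ∈ V t.1 ∧ ∀ n m : ℕ, e (c t.1 n) m = x →
        ∃ k ≤ G t.2.2.1 n, m ∈ U (c t.1 n) (c' t.2.1 k)} :=
    ⟨_, fun _ => rfl⟩
  have gen_mem : ∀ t, Gen t ∈ 𝒲 := by
    intro t
    rw [mem𝒲]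
    intro a
    have hcase : a ∈ range (c t.1) ∨ ∃ b, a = Sum.inr b ∧ t.1 < b := by
      rw [hc]
      rcases a with n | b
      · left; left; exact ⟨n, rfl⟩
      · rcases le_or_gt b t.1 with h | h
        · left; right; exact ⟨b, h, rfl⟩
        · right; exact ⟨b, rfl, h⟩
    rcases hcase with ⟨n, rfl⟩ | ⟨b, rfl, h⟩
    · have h2 : ⋃₀ ((fun k => U (c t.1 n) (c' t.2.1 k)) '' Iic (G t.2.2.1 n)) ∉ q (c t.1 n) := by
        apply sUnion_notMem ((finite_Iic _).image _)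
        rintro s ⟨k, _, rfl⟩
        exact hU _ _
      intro h3
      apply h2
      refine Filter.mem_of_superset h3 ?_
      intro m hm
      rw [mem_preimage, hGen] at hm
      obtain ⟨k, hk, hmk⟩ := hm.2 n m rfl
      exact ⟨_, ⟨k, hk, rfl⟩, hmk⟩
    · apply fin_not
      rw [hAr]
      refine (hA02 b t.1 h).subset (inter_subset_inter_right _ ?_)
      intro x hx
      rw [hGen] at hx
      exact hx.1
  have gen_cof : ∀ X ∈ 𝒲, ∃ t : W × W × W, ∀ β : Bool, X ⊆ Gen (t.1, t.2.1, t.2.2, β) := by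
    intro X hX
    obtain ⟨b, hb⟩ := hV2 X (sub_notMem X hX)
    have h1 : ∀ n, ∃ j, e (c b n) ⁻¹' X ⊆ U (c b n) j := fun n => hU2 _ _ ((mem𝒲 X).1 hX _)
    choose j hj using h1
    obtain ⟨γ, hγ⟩ := hW2 (range j) (countable_range j)
    have h2 : ∀ n, ∃ k, c' γ k = j n := by
      intro n
      have : j n ∈ range (c' γ) := by
        rw [hc']; exact (hγ _ (mem_range_self n)).le
      exact this
    choose f hf using h2
    obtain ⟨g, hg⟩ := hG f
    refine ⟨(b, γ, g), fun β x hx => ?_⟩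
    rw [hGen]
    refine ⟨hb hx, ?_⟩
    intro n m hm
    refine ⟨f n, hg n, ?_⟩
    rw [hf]
    apply hj n
    rw [mem_preimage, hm]
    exact hx
  -- the family
  obtain ⟨ψ⟩ := Cardinal.eq.1 hcard
  obtain ⟨B, hBl, hBr⟩ : ∃ B : ι ⊕ W → Set ℕ, (∀ n, B (Sum.inl n) = D n) ∧
      ∀ i, B (Sum.inr i) = A₀ i ∪ Gen (ψ.symm i) :=
    ⟨Sum.elim D (fun i => A₀ i ∪ Gen (ψ.symm i)), fun _ => rfl, fun _ => rfl⟩
  have hAB : ∀ i, A i ⊆ B i := by
    rintro (n | i)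
    · rw [hAl, hBl]; exact hED n
    · rw [hAr, hBr]; exact subset_union_left
  have B_self : ∀ i, e i ⁻¹' (B i) ∈ q i := by
    intro i
    exact Filter.mem_of_superset (self_mem i) (preimage_mono (hAB i))
  have B_other : ∀ i j, i ≠ j → e i ⁻¹' (B j) ∉ q i := by
    rintro i (n | j) hij
    · rw [hBl]
      exact fin_not i _ (hAlD i n hij)
    · rw [hBr, preimage_union]
      refine union_notMem (fin_not i _ ?_) ((mem𝒲 _).1 (gen_mem _) i)
      have := hAD i (Sum.inr j) hij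
      rwa [hAr] at this
  have B_inj : Function.Injective B := by
    intro i j hij
    by_contra hne
    exact B_other i j hne (hij ▸ B_self i)
  have cover : ∀ X ∈ 𝒲, ∀ i, ∃ j, j ≠ i ∧ X ⊆ B j := by
    intro X hX i
    obtain ⟨t, ht⟩ := gen_cof X hX
    have h1 : ∀ β : Bool, X ⊆ B (Sum.inr (ψ (t.1, t.2.1, t.2.2, β))) := by
      intro β
      rw [hBr, Equiv.symm_apply_apply]
      exact (ht β).trans subset_union_right
    by_cases h : Sum.inr (ψ (t.1, t.2.1, t.2.2, true)) = i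
    · refine ⟨_, ?_, h1 false⟩
      rw [← h]
      intro h2
      have h3 := ψ.injective (Sum.inr_injective h2)
      simp at h3
    · exact ⟨_, h, h1 true⟩
  have notF : ∀ (i : ι ⊕ W) (F : Set (Set ℕ)), F.Finite → F ⊆ range B \ {B i} →
      e i ⁻¹' (⋃₀ F) ∉ q i := by
    intro i F hF hFs
    rw [preimage_sUnion]
    have h2 : (⋃ t ∈ F, e i ⁻¹' t) = ⋃₀ ((fun t => e i ⁻¹' t) '' F) := by
      rw [sUnion_image]
    rw [h2]
    apply sUnion_notMem (hF.image _)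
    rintro s ⟨t, ht, rfl⟩
    obtain ⟨⟨j, rfl⟩, hj⟩ := hFs ht
    apply B_other
    rintro rfl
    exact hj rfl
  have diff_mem : ∀ (i : ι ⊕ W) (F : Set (Set ℕ)), F.Finite → F ⊆ range B \ {B i} →
      e i ⁻¹' (B i \ ⋃₀ F) ∈ q i := by
    intro i F hF hFs
    filter_upwards [B_self i, Ultrafilter.compl_mem_iff_notMem.2 (notF i F hF hFs)] with m h3 h4
    exact ⟨h3, h4⟩
  have diff_𝒲 : ∀ (i : ι ⊕ W) (X : Set ℕ), e i ⁻¹' X ∈ q i → B i \ X ∈ 𝒲 := by
    intro i X hi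
    rw [mem𝒲]
    intro a ha
    by_cases hai : a = i
    · subst hai
      have h3 := Filter.inter_mem ha hi
      have h4 : e a ⁻¹' (B a \ X) ∩ e a ⁻¹' X = ∅ := by
        ext m
        simp only [mem_inter_iff, mem_preimage, mem_diff, mem_empty_iff_false, iff_false]
        rintro ⟨⟨_, h5⟩, h6⟩
        exact h5 h6
      rw [h4] at h3
      exact finite_notMem (hq a) finite_empty h3
    · exact B_other a i hai (Filter.mem_of_superset ha (preimage_mono diff_subset))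
  refine ⟨B, e, B_inj, hBl, ⟨⟨?_, ?_⟩, ?_⟩, he1, ?_⟩
  · rintro s ⟨i, rfl⟩
    exact (hA1 i).mono (hAB i)
  · rintro s ⟨i, rfl⟩ F hF hFs
    have h2 := infinite_of_mem (hq i) (diff_mem i F hF hFs)
    intro h3
    exact h2 (h3.preimage (he1 i).injOn)
  · intro J hJ hIJ
    refine Subset.antisymm ?_ hIJ
    intro X hXJ
    by_contra hXI
    -- `X` is not covered
    have hX𝒲 : X ∉ 𝒲 := by
      intro h
      obtain ⟨j, _, hj⟩ := cover X h (Sum.inr w₀)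
      have h1 := hJ.2 X hXJ {B j} (finite_singleton _) (by
        rw [singleton_subset_iff]
        refine ⟨hIJ (mem_range_self j), ?_⟩
        intro h2
        rw [mem_singleton_iff] at h2
        exact hXI ⟨j, h2⟩)
      rw [sUnion_singleton, diff_eq_empty.2 hj] at h1
      exact h1 finite_empty
    have h1 : ∃ i, e i ⁻¹' X ∈ q i := by
      by_contra hcon
      apply hX𝒲
      rw [mem𝒲]
      intro a ha
      exact hcon ⟨a, ha⟩
    obtain ⟨i, hi⟩ := h1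
    obtain ⟨j, hji, hj⟩ := cover _ (diff_𝒲 i X hi) i
    have h3 := hJ.2 (B i) (hIJ (mem_range_self i)) {X, B j} (by
      exact (finite_singleton _).insert _) (by
      intro s hs
      rcases hs with hs | hs
      · rw [hs]
        refine ⟨hXJ, ?_⟩
        intro h4
        rw [mem_singleton_iff] at h4
        exact hXI ⟨i, h4.symm⟩
      · rw [mem_singleton_iff] at hs
        rw [hs]
        refine ⟨hIJ (mem_range_self j), ?_⟩
        intro h4
        rw [mem_singleton_iff] at h4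
        exact hji (B_inj h4))
    apply h3
    have h4 : B i \ ⋃₀ {X, B j} = ∅ := by
      rw [diff_eq_empty]
      intro x hx
      by_cases hxX : x ∈ X
      · exact ⟨X, mem_insert _ _, hxX⟩
      · exact ⟨B j, mem_insert_of_mem _ rfl, hj ⟨hx, hxX⟩⟩
    rw [h4]
    exact finite_empty
  · intro i X
    constructor
    · intro hi
      obtain ⟨j, hji, hj⟩ := cover _ (diff_𝒲 i X hi) i
      refine ⟨{B j}, finite_singleton _, ?_, ?_⟩
      · rw [singleton_subset_iff]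
        exact ⟨mem_range_self j, fun h => hji (B_inj h)⟩
      · have h1 : (B i \ ⋃₀ {B j}) \ X = ∅ := by
          rw [sUnion_singleton, diff_eq_empty]
          rintro x ⟨hx1, hx2⟩
          by_contra hx3
          exact hx2 (hj ⟨hx1, hx3⟩)
        rw [h1]; exact finite_empty
    · rintro ⟨F, hF, hFs, hfin⟩
      have h1 : e i ⁻¹' ((B i \ ⋃₀ F) \ X) ∉ q i :=
        finite_notMem (hq i) (hfin.preimage (he1 i).injOn)
      filter_upwards [diff_mem i F hF hFs, Ultrafilter.compl_mem_iff_notMem.2 h1] with m h3 h4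
      by_contra h5
      exact h4 ⟨h3, h5⟩

end

/-- Families of generators of the dual ideal. -/
theorem exists_gen {W : Type} (hWcard : #W = ℵ₁) {q : Ultrafilter ℕ} (hq : ∀ n : ℕ, {n} ∉ q)
    {B : Set (Set ℕ)} (hB : IsBase q B) (hBcard : #B ≤ ℵ₁) :
    ∃ U : W → Set ℕ, (∀ a, U a ∉ q) ∧ ∀ X : Set ℕ, X ∉ q → ∃ a, X ⊆ U a := by
  classical
  have hℵ : (ℵ₀ : Cardinal.{0}) ≤ ℵ₁ := Cardinal.aleph0_le_aleph 1
  have h1 : #(B × Finset ℕ) ≤ #W := by
    rw [hWcard, Cardinal.mk_prod, Cardinal.lift_id, Cardinal.lift_id,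
      Cardinal.mk_finset_of_infinite, Cardinal.mk_nat]
    exact (mul_le_mul' hBcard hℵ).trans (Cardinal.mul_eq_self hℵ).le
  obtain ⟨f⟩ := Cardinal.le_def _ _ |>.1 h1
  obtain ⟨b₀, hb₀, _⟩ := hB.2 Set.univ Filter.univ_mem
  have : Nonempty (B × Finset ℕ) := ⟨(⟨b₀, hb₀⟩, ∅)⟩
  obtain ⟨s, hs⟩ : ∃ s : W → B × Finset ℕ, Function.Surjective s :=
    ⟨Function.invFun f, Function.invFun_surjective f.injective⟩
  refine ⟨fun a => ((s a).1 : Set ℕ)ᶜ ∪ ((s a).2 : Set ℕ), ?_, ?_⟩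
  · intro a
    apply union_notMem
    · rw [Ultrafilter.compl_notMem_iff]
      exact hB.1 _ (s a).1.2
    · exact finite_notMem hq (Finset.finite_toSet _)
  · intro X hX
    obtain ⟨b, hb, hfin⟩ := hB.2 Xᶜ (Ultrafilter.compl_mem_iff_notMem.2 hX)
    obtain ⟨a, ha⟩ := hs (⟨b, hb⟩, hfin.toFinset)
    refine ⟨a, ?_⟩
    intro x hx
    show x ∈ ((s a).1 : Set ℕ)ᶜ ∪ ((s a).2 : Set ℕ)
    rw [ha]
    by_cases hxb : x ∈ b
    · right
      rw [Finset.mem_coe, Set.Finite.mem_toFinset]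
      exact ⟨hxb, fun h => h hx⟩
    · left
      exact hxb

/-- An injective map agrees with a permutation on a member of the ultrafilter. -/
theorem exists_perm {q : Ultrafilter ℕ} {e : ℕ → ℕ} (he : Function.Injective e) :
    ∃ σ : Equiv.Perm ℕ, q.map σ = q.map e := by
  classical
  obtain ⟨Y, hY, hYc⟩ : ∃ Y ∈ q, (Yᶜ).Infinite := by
    have hE : ({n : ℕ | Even n} : Set ℕ).Infinite := by
      apply infinite_of_injective_forall_mem (f := fun n : ℕ => 2 * n)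
      · intro a b hab
        simpa using hab
      · intro n
        exact even_two_mul n
    have hO : ({n : ℕ | ¬ Even n} : Set ℕ).Infinite := by
      apply infinite_of_injective_forall_mem (f := fun n : ℕ => 2 * n + 1)
      · intro a b hab
        simpa using hab
      · intro n
        simp
    by_cases h : {n : ℕ | Even n} ∈ q
    · exact ⟨_, h, hO⟩
    · refine ⟨{n : ℕ | Even n}ᶜ, Ultrafilter.compl_mem_iff_notMem.2 h, ?_⟩
      rw [compl_compl]; exact hE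
  have h1 : ((e '' Y)ᶜ).Infinite := by
    refine (hYc.image he.injOn).mono ?_
    rintro _ ⟨x, hx, rfl⟩ ⟨y, hy, hxy⟩
    rw [he hxy] at hy
    exact hx hy
  have hI1 : Infinite (Yᶜ : Set ℕ) := hYc.to_subtype
  have hI2 : Infinite ((e '' Y)ᶜ : Set ℕ) := h1.to_subtype
  obtain ⟨δ₁⟩ := nonempty_denumerable (Yᶜ : Set ℕ)
  obtain ⟨δ₂⟩ := nonempty_denumerable ((e '' Y)ᶜ : Set ℕ)
  let τ : (Yᶜ : Set ℕ) ≃ ((e '' Y)ᶜ : Set ℕ) :=
    (Denumerable.eqv (Yᶜ : Set ℕ)).trans (Denumerable.eqv ((e '' Y)ᶜ : Set ℕ)).symm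
  let σ : Equiv.Perm ℕ := (Equiv.Set.sumCompl Y).symm.trans
    (((Equiv.Set.image e Y he).sumCongr τ).trans (Equiv.Set.sumCompl (e '' Y)))
  refine ⟨σ, ?_⟩
  have h2 : ∀ y ∈ Y, σ y = e y := by
    intro y hy
    show (Equiv.Set.sumCompl (e '' Y)) (((Equiv.Set.image e Y he).sumCongr τ)
      ((Equiv.Set.sumCompl Y).symm y)) = e y
    rw [Equiv.Set.sumCompl_symm_apply_of_mem hy]
    rfl
  apply Ultrafilter.coe_injective
  rw [Ultrafilter.coe_map, Ultrafilter.coe_map]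
  apply Filter.map_congr
  filter_upwards [hY] with y hy
  exact h2 y hy

/-- The data from `𝔡 = ℵ₁`. -/
theorem exists_dom {W : Type} (hWcard : #W = ℵ₁) (hd : dNumber = ℵ₁) :
    ∃ G : W → ℕ → ℕ, ∀ f : ℕ → ℕ, ∃ a, ∀ n, f n ≤ G a n := by
  classical
  have h01 : (ℵ₁ : Cardinal.{0}) ≠ 0 := (Cardinal.aleph_pos 1).ne'
  have hℵ : (ℵ₀ : Cardinal.{0}) ≤ ℵ₁ := Cardinal.aleph0_le_aleph 1
  obtain ⟨Dm, hDdom, hDcard⟩ := csInf_mem (s := {κ | ∃ D : Set (ℕ → ℕ),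
      (∀ f : ℕ → ℕ, ∃ g ∈ D, ∀ᶠ n in atTop, f n ≤ g n) ∧ #D = κ}) (by
    by_contra hne
    rw [not_nonempty_iff_eq_empty] at hne
    apply h01
    rw [← hd, dNumber, hne]
    exact Cardinal.sInf_empty)
  rw [show sInf {κ | ∃ D : Set (ℕ → ℕ),
      (∀ f : ℕ → ℕ, ∃ g ∈ D, ∀ᶠ n in atTop, f n ≤ g n) ∧ #D = κ} = ℵ₁ from hd] at hDcard
  have hDN : #W = #(Dm × ℕ) := by
    rw [Cardinal.mk_prod, Cardinal.lift_id, Cardinal.lift_id, hDcard, hWcard,
      Cardinal.mk_nat, Cardinal.mul_eq_left hℵ hℵ Cardinal.aleph0_ne_zero]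
  obtain ⟨χ⟩ := Cardinal.eq.1 hDN
  refine ⟨fun a n => (χ a).1.1 n + (χ a).2, ?_⟩
  intro f
  obtain ⟨g, hg, hfg⟩ := hDdom f
  obtain ⟨N, hN⟩ := eventually_atTop.1 hfg
  refine ⟨χ.symm (⟨g, hg⟩, (Finset.range N).sum f), ?_⟩
  intro n
  show f n ≤ (χ _).1.1 n + (χ _).2
  rw [Equiv.apply_symm_apply]
  rcases le_or_gt N n with h | h
  · exact (hN n h).trans (Nat.le_add_right _ _)
  · have h1 : f n ≤ (Finset.range N).sum f :=
      Finset.single_le_sum (f := f) (fun _ _ => Nat.zero_le _) (Finset.mem_range.2 h)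
    exact h1.trans (Nat.le_add_left _ _)

/-- A hub: a small ultrafilter which contains an infinite set `X`. -/
theorem exists_hub (hu : uNumber = ℵ₁) {X : Set ℕ} (hX1 : X.Infinite) :
    ∃ p : Ultrafilter ℕ, (∀ n : ℕ, {n} ∉ p) ∧ (∀ Y : Set ℕ, (X ∩ Y).Finite → Y ∉ p) ∧
      ∃ B : Set (Set ℕ), IsBase p B ∧ #B ≤ ℵ₁ := by
  have h01 : (ℵ₁ : Cardinal.{0}) ≠ 0 := (Cardinal.aleph_pos 1).ne'
  obtain ⟨p₀, hp₀, B₀, hB₀, hBcard₀⟩ := csInf_mem (s := {κ | ∃ p : Ultrafilter ℕ,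
      (∀ n : ℕ, {n} ∉ p) ∧ ∃ B : Set (Set ℕ), IsBase p B ∧ #B = κ}) (by
    by_contra hne
    rw [not_nonempty_iff_eq_empty] at hne
    apply h01
    rw [← hu, uNumber, hne]
    exact Cardinal.sInf_empty)
  rw [show sInf {κ | ∃ p : Ultrafilter ℕ,
      (∀ n : ℕ, {n} ∉ p) ∧ ∃ B : Set (Set ℕ), IsBase p B ∧ #B = κ} = ℵ₁ from hu] at hBcard₀
  obtain ⟨u, hu1, hu2⟩ : ∃ u : ℕ → ℕ, Function.Injective u ∧ range u = X :=
    ⟨Nat.nth (· ∈ X), Nat.nth_injective hX1, Nat.range_nth_of_infinite hX1⟩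
  have hpre : ∀ Y : Set ℕ, (X ∩ Y).Finite → u ⁻¹' Y ∉ p₀ := by
    intro Y hY
    apply finite_notMem hp₀
    have h1 : u ⁻¹' Y = u ⁻¹' (X ∩ Y) := by
      ext m
      simp only [mem_preimage, mem_inter_iff]
      exact ⟨fun h => ⟨hu2 ▸ mem_range_self m, h⟩, fun h => h.2⟩
    rw [h1]
    exact hY.preimage hu1.injOn
  obtain ⟨p, hpmem⟩ : ∃ p : Ultrafilter ℕ, ∀ Y : Set ℕ, Y ∈ p ↔ u ⁻¹' Y ∈ p₀ :=
    ⟨p₀.map u, fun Y => Ultrafilter.mem_map⟩
  obtain ⟨B, hBdef⟩ : ∃ B : Set (Set ℕ), B = (fun b => u '' b) '' B₀ := ⟨_, rfl⟩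
  refine ⟨p, ?_, ?_, B, ⟨?_, ?_⟩, ?_⟩
  · intro n
    rw [hpmem]
    exact hpre _ ((finite_singleton n).subset inter_subset_right)
  · intro Y hY
    rw [hpmem]
    exact hpre Y hY
  · intro b hb
    rw [hBdef] at hb
    obtain ⟨b, hb, rfl⟩ := hb
    rw [hpmem]
    exact Filter.mem_of_superset (hB₀.1 b hb) (subset_preimage_image u b)
  · intro U hU
    rw [hpmem] at hU
    obtain ⟨b, hb, hfin⟩ := hB₀.2 _ hU
    refine ⟨u '' b, by rw [hBdef]; exact ⟨b, hb, rfl⟩, ?_⟩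
    refine (hfin.image u).subset ?_
    rintro x ⟨⟨y, hy, rfl⟩, hx⟩
    exact ⟨y, ⟨hy, hx⟩, rfl⟩
  · rw [hBdef, Cardinal.mk_image_eq hu1.image_injective, hBcard₀]

/-- **Realisation.** -/
theorem realise (hd : dNumber = ℵ₁) (hu : uNumber = ℵ₁) {W : Type} (hWcard : #W = ℵ₁)
    {I₀ : Set (Set ℕ)} (hI₀ : IdealIndependent I₀) (hc : I₀.Countable)
    (hnm : ¬ (I₀.Finite ∧ MaximalIdealIndependent I₀)) (q : I₀ ⊕ W → Ultrafilter ℕ)
    (hq : ∀ i, (∀ n : ℕ, {n} ∉ q i) ∧ ∃ B : Set (Set ℕ), IsBase (q i) B ∧ #B ≤ ℵ₁) :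
    ∃ B : I₀ ⊕ W → Set ℕ, Function.Injective B ∧ (∀ A : I₀, B (Sum.inl A) = A) ∧
      MaximalIdealIndependent (range B) ∧
      ∀ i, ∃ σ : Equiv.Perm ℕ, ∀ X : Set ℕ, X ∈ (q i).map σ ↔
        ∃ F : Set (Set ℕ), F.Finite ∧ F ⊆ range B \ {B i} ∧ ((B i \ ⋃₀ F) \ X).Finite := by
  classical
  have hℵ : (ℵ₀ : Cardinal.{0}) ≤ ℵ₁ := Cardinal.aleph0_le_aleph 1
  -- the index set
  obtain ⟨Ω, hΩ⟩ : ∃ Ω : Type, Ω = (ℵ₁ : Cardinal.{0}).ord.ToType := ⟨_, rfl⟩
  have hTcard : #((ℵ₁ : Cardinal.{0}).ord.ToType) = ℵ₁ := Cardinal.mk_ord_toType _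
  have hW : ∀ a : (ℵ₁ : Cardinal.{0}).ord.ToType, (Iio a).Countable := by
    intro a
    rw [← Cardinal.le_aleph0_iff_set_countable]
    have h1 : #(Iio a) < ℵ₁ := Cardinal.mk_Iio_ord_toType a
    exact Order.lt_succ_iff.1 (h1.trans_eq Cardinal.succ_aleph0.symm)
  have hW2 : ∀ s : Set (ℵ₁ : Cardinal.{0}).ord.ToType, s.Countable → ∃ b, ∀ a ∈ s, a < b := by
    intro s hs
    by_contra hcon
    push Not at hcon
    have h1 : (Set.univ : Set (ℵ₁ : Cardinal.{0}).ord.ToType).Countable := by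
      refine (hs.biUnion (t := fun a _ => Iic a) ?_).mono ?_
      · intro a _
        rw [← Iio_insert]
        exact (hW a).insert a
      · intro b _
        obtain ⟨a, ha, hba⟩ := hcon b
        exact mem_biUnion ha hba
    rw [← Cardinal.le_aleph0_iff_set_countable, Cardinal.mk_univ, hTcard,
      ← Cardinal.succ_aleph0] at h1
    exact absurd h1 (not_le.2 (Order.lt_succ _))
  have hcard : #((ℵ₁ : Cardinal.{0}).ord.ToType × (ℵ₁ : Cardinal.{0}).ord.ToType ×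
      (ℵ₁ : Cardinal.{0}).ord.ToType × Bool) = #((ℵ₁ : Cardinal.{0}).ord.ToType) := by
    simp only [Cardinal.mk_prod, Cardinal.lift_id, hTcard, Cardinal.lift_aleph, Cardinal.mk_bool]
    have h2 : (ℵ₁ : Cardinal.{0}) * 2 = ℵ₁ :=
      Cardinal.mul_eq_left hℵ ((Cardinal.nat_lt_aleph0 2).le.trans hℵ) two_ne_zero
    rw [h2, Cardinal.mul_eq_self hℵ, Cardinal.mul_eq_self hℵ]
  obtain ⟨ε⟩ : Nonempty (W ≃ (ℵ₁ : Cardinal.{0}).ord.ToType) :=
    Cardinal.eq.1 (hWcard.trans hTcard.symm)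
  have hcI : Countable I₀ := hc.to_subtype
  -- the hub
  obtain ⟨X, hX1, _, hX2⟩ := pseudo (A := Set.univ) hc (by
    intro F hF hFs
    by_contra hcon
    rw [not_infinite] at hcon
    exact hnm (Pool.Agent.Y375.MI.finite_maximal hI₀ hFs hF (by
      rwa [← compl_eq_univ_diff] at hcon)))
  obtain ⟨p, hp, hpX, Bp, hBp, hBpcard⟩ := exists_hub hu hX1
  obtain ⟨V, hV, hV2⟩ := exists_gen hTcard hp hBp hBpcard
  obtain ⟨G, hG⟩ := exists_dom hTcard hd
  -- the sets `E`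
  have hEx : ∀ A : I₀, ∃ E : Set ℕ, E.Infinite ∧ E ⊆ A.1 ∧ ∀ C ∈ I₀ \ {A.1}, (E ∩ C).Finite := by
    intro A
    exact pseudo (hc.mono diff_subset) (fun F hF hFs => hI₀.2 A.1 A.2 F hF hFs)
  choose E hE1 hE2 hE3 using hEx
  obtain ⟨r, hr⟩ : ∃ r : I₀ ⊕ (ℵ₁ : Cardinal.{0}).ord.ToType → Ultrafilter ℕ,
      ∀ i, r i = q (Sum.map id ε.symm i) := ⟨_, fun _ => rfl⟩
  have hUx : ∀ i, ∃ U : (ℵ₁ : Cardinal.{0}).ord.ToType → Set ℕ, (∀ a, U a ∉ r i) ∧
      ∀ X : Set ℕ, X ∉ r i → ∃ a, X ⊆ U a := by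
    intro i
    rw [hr]
    obtain ⟨h1, B, hB, hBc⟩ := hq (Sum.map id ε.symm i)
    exact exists_gen hTcard h1 hB hBc
  choose U hU hU2 using hUx
  obtain ⟨B, e, hBinj, hBl, hmax, he, hatt⟩ := exists_real hW hW2 hcard hp V hV hV2 G hG
    (fun A : I₀ => A.1) E hE1 hE2 (fun A C hAC => hE3 A C.1 ⟨C.2, fun h => hAC
      (Subtype.ext (mem_singleton_iff.1 h).symm)⟩)
    (fun A => hpX _ (hX2 A.1 A.2)) r (fun i => by rw [hr]; exact (hq _).1) U hU hU2
  let θ : I₀ ⊕ W ≃ I₀ ⊕ (ℵ₁ : Cardinal.{0}).ord.ToType := (Equiv.refl _).sumCongr ε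
  have hrange : range (B ∘ θ) = range B := θ.surjective.range_comp B
  refine ⟨B ∘ θ, hBinj.comp θ.injective, fun A => hBl A, ?_, ?_⟩
  · rw [hrange]; exact hmax
  · intro i
    obtain ⟨σ, hσ⟩ := exists_perm (q := q i) (he (θ i))
    refine ⟨σ, fun X => ?_⟩
    have h1 : r (θ i) = q i := by
      rw [hr]
      congr 1
      rcases i with A | w
      · rfl
      · show Sum.inr (ε.symm (ε w)) = Sum.inr w
        rw [Equiv.symm_apply_apply]
    rw [hσ, Ultrafilter.mem_map, hrange, Function.comp_apply, ← hatt (θ i) X, h1]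

/-- Ultrafilters attached to members of families of size `ℵ₁` are small. -/
theorem small_of_attached {I : Set (Set ℕ)} (hI : IdealIndependent I) (hIc : #I ≤ ℵ₁)
    {A : Set ℕ} (hA : A ∈ I) {q : Ultrafilter ℕ} {σ : Equiv.Perm ℕ}
    (h : ∀ X : Set ℕ, X ∈ q.map σ ↔
      ∃ F : Set (Set ℕ), F.Finite ∧ F ⊆ I \ {A} ∧ ((A \ ⋃₀ F) \ X).Finite) :
    (∀ n : ℕ, {n} ∉ q) ∧ ∃ B : Set (Set ℕ), IsBase q B ∧ #B ≤ ℵ₁ := by
  classical
  have hℵ : (ℵ₀ : Cardinal.{0}) ≤ ℵ₁ := Cardinal.aleph0_le_aleph 1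
  have hmem : ∀ X : Set ℕ, X ∈ q ↔ σ '' X ∈ q.map σ := by
    intro X
    rw [Ultrafilter.mem_map, preimage_image_eq _ σ.injective]
  refine ⟨?_, ?_⟩
  · intro n hn
    rw [hmem, h] at hn
    obtain ⟨F, hF, hFs, hfin⟩ := hn
    have h1 := hI.2 A hA F hF hFs
    apply h1
    refine (hfin.union (finite_singleton (σ n))).subset ?_
    intro x hx
    by_cases hxn : x = σ n
    · right; exact hxn
    · left
      refine ⟨hx, ?_⟩
      rw [image_singleton, mem_singleton_iff]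
      exact hxn
  · refine ⟨range (fun F : Finset I => σ ⁻¹' (A \ ⋃₀ ((Subtype.val '' (F : Set I)) \ {A}))),
      ⟨?_, ?_⟩, ?_⟩
    · rintro _ ⟨F, rfl⟩
      rw [hmem, h]
      refine ⟨(Subtype.val '' (F : Set I)) \ {A}, ((F.finite_toSet.image _).subset diff_subset), ?_,
        ?_⟩
      · rintro B ⟨⟨C, _, rfl⟩, hB⟩
        exact ⟨C.2, hB⟩
      · rw [image_preimage_eq _ σ.surjective, sdiff_self]
        exact finite_empty
    · intro X hX
      rw [hmem, h] at hX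
      obtain ⟨F, hF, hFs, hfin⟩ := hX
      have hFI : F ⊆ I := fun B hB => (hFs hB).1
      obtain ⟨F', hF'⟩ : ∃ F' : Finset I, Subtype.val '' (F' : Set I) = F := by
        have h1 : (Subtype.val ⁻¹' F : Set I).Finite := hF.preimage Subtype.val_injective.injOn
        refine ⟨h1.toFinset, ?_⟩
        rw [Set.Finite.coe_toFinset, Subtype.image_preimage_coe, inter_eq_right]
        exact hFI
      refine ⟨_, ⟨F', rfl⟩, ?_⟩
      show (σ ⁻¹' (A \ ⋃₀ ((Subtype.val '' (F' : Set I)) \ {A})) \ X).Finite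
      rw [hF']
      have h2 : F \ {A} = F := by
        ext B
        constructor
        · exact fun hB => hB.1
        · exact fun hB => ⟨hB, (hFs hB).2⟩
      rw [h2]
      have h3 : σ ⁻¹' (A \ ⋃₀ F) \ X ⊆ σ ⁻¹' ((A \ ⋃₀ F) \ σ '' X) := by
        rintro x ⟨hx1, hx2⟩
        refine ⟨hx1, ?_⟩
        rintro ⟨y, hy, hxy⟩
        exact hx2 (σ.injective hxy ▸ hy)
      exact (hfin.preimage σ.injective.injOn).subset h3
    · refine Cardinal.mk_range_le.trans ?_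
      rcases finite_or_infinite I with hfin | hinf
      · exact (Cardinal.lt_aleph0_of_finite (Finset I)).le.trans hℵ
      · rw [Cardinal.mk_finset_of_infinite]
        exact hIc

end Pool.Agent.KS6_78.SM
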